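import Pool.Agent.H583.AR.Arr

/-!
The number of the exceptional points of an arrangement.
-/

set_option autoImplicit false

namespace Pool.Agent.H583.AR

open Finset Pool.Agent.T2H20.ABC Pool.Agent.T2H20.AH Pool.Agent.H785R2.ABC Pool.Agent.H583.SF
  Pool.Agent.H583.WT

section

variable {n q k : ℕ}

/-- the product of the primes outside `S` dividing a value of a form -/
def rd (S : Finset ℕ) (L : Fin q → Fin (n + 1) → ℤ) (x : Fin (n + 1) → ℤ) : ℕ :=
  ∏ p ∈ (∏ i, vl L x i).natAbs.primeFactors \ S, p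

lemma rd_pos (S : Finset ℕ) (L : Fin q → Fin (n + 1) → ℤ) (x : Fin (n + 1) → ℤ) : 0 < rd S L x :=
  Finset.prod_pos fun _ hp => (Nat.prime_of_mem_primeFactors (mem_sdiff.1 hp).1).pos

/-- the height -/
def hx (x : Fin (n + 1) → ℤ) : ℕ := univ.sup fun l => (x l).natAbs

lemma le_hx (x : Fin (n + 1) → ℤ) (l : Fin (n + 1)) : (x l).natAbs ≤ hx x :=
  Finset.le_sup (f := fun l => (x l).natAbs) (mem_univ l)

lemma hx_pos {x : Fin (n + 1) → ℤ} (hg : univ.gcd x = 1) : 1 ≤ hx x := by
  by_contra h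
  have h0 : ∀ l, x l = 0 := by
    intro l
    have := le_hx x l
    have : (x l).natAbs = 0 := by omega
    exact Int.natAbs_eq_zero.1 this
  have : univ.gcd x = 0 := Finset.gcd_eq_zero_iff.2 fun l _ => h0 l
  rw [this] at hg
  exact zero_ne_one hg

variable {L : Fin q → Fin (n + 1) → ℤ} {b : Fin (n + 1) → Fin q}
    {F : Fin (n + 1) → Fin (n + 1) → Fin k → ℤ × ℤ} {f : Fin (n + 1) → Fin (n + 1) → Fin k → Fin q}
    {c : Fin (n + 1) → Fin (n + 1) → Fin k → ℤ}

open Classical in
/-- **the exceptional points of an arrangement** -/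
theorem points (hk : 3 ≤ k) (H : Rels L b F f c) (S : Finset ℕ) (ε : ℝ) (hε : 0 < ε) :
    ∃ κ C : ℝ, 0 < κ ∧ 0 < C ∧ ∀ X : ℝ, 1 ≤ X → ∀ Q : Finset (Fin (n + 1) → ℤ),
    (∀ x ∈ Q, univ.gcd x = 1 ∧ (∀ i, vl L x i ≠ 0) ∧ (rd S L x : ℝ) ≤ X ∧
      κ * Real.log (rd S L x) < Real.log (hx x)) →
    (Q.card : ℝ) ≤ C * X ^ (1 / (k : ℝ) + ε) := by
  obtain ⟨M, C₁, hM, hC₁, h⟩ := total k hk n F (fun i j hij a a' haa => H.F0 i j hij a a' haa)
    (S1 S F c) (fun p hp => S1_prime hp) (fun i j _ a a' _ => S1_det i j a a') ε hε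
  obtain ⟨E, hE, hEh⟩ := height_le H.det
  obtain ⟨s, hs⟩ : ∃ s, s = ∏ p ∈ S1 S F c, p := ⟨_, rfl⟩
  have hs1 : 1 ≤ s := by rw [hs]; exact Finset.prod_pos fun p hp => (S1_prime hp).pos
  rw [← hs] at h
  have hsr : (1 : ℝ) ≤ s := by exact_mod_cast hs1
  have hEr : (1 : ℝ) ≤ E := by exact_mod_cast hE
  have hls : 0 ≤ Real.log s := Real.log_nonneg hsr
  have hlE : 0 ≤ Real.log E := Real.log_nonneg hEr
  obtain ⟨κ, hκ⟩ : ∃ κ : ℝ, κ = Real.log E + (2 * M * (n + 1) : ℕ) * (Real.log s + 1) := ⟨_, rfl⟩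
  have hM0 : 0 < 2 * M * (n + 1) := Nat.mul_pos (by omega) (by omega)
  have hMr : (0 : ℝ) < (2 * M * (n + 1) : ℕ) := by exact_mod_cast hM0
  have hκ0 : 0 < κ := by rw [hκ]; positivity
  obtain ⟨A, hA⟩ : ∃ A, A = ⌊Real.exp κ⌋₊ := ⟨_, rfl⟩
  have hk0 : (0 : ℝ) < k := by
    have : 0 < k := by omega
    exact_mod_cast this
  refine ⟨3 * κ, 2 * C₁ + ((2 * A + 1) ^ (n + 1) : ℕ), by positivity, by positivity, ?_⟩
  intro X hX Q hQ
  have hX0 : (0 : ℝ) < X := by linarith
  set Q1 := Q.filter fun x => κ * (Real.log (rd S L x) + 1) < Real.log (hx x) with hQ1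
  set Q2 := Q.filter fun x => ¬ κ * (Real.log (rd S L x) + 1) < Real.log (hx x) with hQ2
  have hsplit : Q.card = Q1.card + Q2.card := (Finset.card_filter_add_card_filter_not _).symm
  -- the points of small height
  have b2 : Q2.card ≤ (2 * A + 1) ^ (n + 1) := by
    have hsub : Q2 ⊆ Fintype.piFinset fun _ : Fin (n + 1) => Icc (-(A : ℤ)) A := by
      intro x hxQ
      rw [hQ2, mem_filter, not_lt] at hxQ
      obtain ⟨g1, g2, g3, g4⟩ := hQ x hxQ.1
      have hrd := rd_pos S L x
      have hh := hx_pos g1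
      have hhr : (0 : ℝ) < hx x := by exact_mod_cast hh
      have hN : rd S L x = 1 := by
        by_contra hne
        have h2 : 2 ≤ rd S L x := by omega
        have h3 : Real.log 2 ≤ Real.log (rd S L x) :=
          Real.log_le_log (by norm_num) (by exact_mod_cast h2)
        have h4 := Real.log_two_gt_d9
        nlinarith
      rw [hN] at hxQ
      have h5 : Real.log (hx x) ≤ κ := by
        have := hxQ.2
        rw [Nat.cast_one, Real.log_one] at this
        linarith
      have h6 : hx x ≤ A := by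
        rw [hA]
        apply Nat.le_floor
        rwa [← Real.log_le_iff_le_exp hhr]
      rw [Fintype.mem_piFinset]
      intro l
      rw [mem_Icc]
      have := le_hx x l
      omega
    have h7 := card_le_card hsub
    rw [Fintype.card_piFinset, Finset.prod_const, card_univ, Fintype.card_fin, Int.card_Icc] at h7
    have h8 : ((A : ℤ) + 1 - -(A : ℤ)).toNat = 2 * A + 1 := by omega
    rwa [h8] at h7
  -- the other points
  have b1 : (Q1.card : ℝ) ≤ 2 * (C₁ * X ^ (1 / (k : ℝ) + ε)) := by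
    have hfib : Q1.card ≤ 2 * (Q1.image (tx L b)).card := by
      apply Finset.card_le_mul_card_image
      intro t ht
      rw [mem_image] at ht
      obtain ⟨x0, hx0, rfl⟩ := ht
      have hsub : (Q1.filter fun x => tx L b x = tx L b x0) ⊆ {x0, -x0} := by
        intro y hy
        rw [mem_filter] at hy
        rw [hQ1, mem_filter] at hx0 hy
        obtain ⟨g1, g2, -⟩ := hQ x0 hx0.1
        obtain ⟨g1', g2', -⟩ := hQ y hy.1.1
        rw [mem_insert, mem_singleton]
        exact tx_inj H.det g1 g1' g2 g2' hy.2.symm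
      exact (card_le_card hsub).trans Finset.card_le_two
    have h1 := h ⌊X⌋₊ (Nat.le_floor (by exact_mod_cast hX)) (Q1.image (tx L b)) (by
      intro t ht
      rw [mem_image] at ht
      obtain ⟨x, hxQ, rfl⟩ := ht
      rw [hQ1, mem_filter] at hxQ
      obtain ⟨g1, g2, g3, g4⟩ := hQ x hxQ.1
      have hRb : Rb F (S1 S F c) (tx L b x) univ ≤ rd S L x := by
        unfold Rb rd
        apply Finset.prod_le_prod_of_subset_of_one_le' (bad_sub H g2 S)
        intro p hp _
        exact (Nat.prime_of_mem_primeFactors (mem_sdiff.1 hp).1).one_lt.le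
      refine ⟨adm H g2, hRb.trans (Nat.le_floor g3), ?_⟩
      by_contra hcon
      push Not at hcon
      have hrd := rd_pos S L x
      obtain ⟨T, hT⟩ : ∃ T, T = (s * rd S L x) ^ (2 * M) := ⟨_, rfl⟩
      have hT1 : 1 ≤ T := by
        rw [hT]
        exact Nat.one_le_pow _ _ (Nat.mul_pos hs1 hrd)
      have hj : ∀ j, ht (ra (tx L b x) j 0) ≤ T := by
        intro j
        by_cases h0 : j = 0
        · rw [h0]
          have : ra (tx L b x) 0 0 = (1, 1) := by
            unfold ra
            rw [div_self ((adm H g2).ne 0)]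
            rfl
          rw [this]
          exact hT1
        · refine (hcon j h0).le.trans ?_
          rw [hT]
          exact Nat.pow_le_pow_left (Nat.mul_le_mul_left _ hRb) _
      have hprod : ∏ j, ht (ra (tx L b x) j 0) ≤ T ^ (n + 1) := by
        calc ∏ j, ht (ra (tx L b x) j 0) ≤ ∏ _j : Fin (n + 1), T :=
              Finset.prod_le_prod' fun j _ => hj j
          _ = T ^ (n + 1) := by rw [Finset.prod_const, card_univ, Fintype.card_fin]
      have hhx : hx x ≤ E * (s * rd S L x) ^ (2 * M * (n + 1)) := by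
        unfold hx
        apply Finset.sup_le
        intro l _
        refine (hEh x g1 g2 l).trans (Nat.mul_le_mul_left _ (hprod.trans (le_of_eq ?_)))
        rw [hT, ← pow_mul]
      have hh := hx_pos g1
      have hhr : (0 : ℝ) < hx x := by exact_mod_cast hh
      have hrr : (0 : ℝ) < rd S L x := by exact_mod_cast hrd
      have hlog : Real.log (hx x) ≤ Real.log E + (2 * M * (n + 1) : ℕ) *
          (Real.log s + Real.log (rd S L x)) := by
        calc Real.log (hx x) ≤ Real.log ((E : ℝ) * ((s : ℝ) * rd S L x) ^ (2 * M * (n + 1))) := by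
              apply Real.log_le_log hhr
              exact_mod_cast hhx
          _ = _ := by
              rw [Real.log_mul (by positivity) (by positivity), Real.log_pow,
                Real.log_mul (by positivity) (by positivity)]
      have hlr : 0 ≤ Real.log (rd S L x) := Real.log_nonneg (by exact_mod_cast hrd)
      have h9 := hxQ.2
      have h10 : Real.log E + (2 * M * (n + 1) : ℕ) * (Real.log s + Real.log (rd S L x)) ≤
          κ * (Real.log (rd S L x) + 1) := by
        rw [hκ]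
        obtain ⟨m, hm⟩ : ∃ m : ℝ, m = ((2 * M * (n + 1) : ℕ) : ℝ) := ⟨_, rfl⟩
        obtain ⟨r, hr⟩ : ∃ r : ℝ, r = Real.log (rd S L x) := ⟨_, rfl⟩
        rw [← hm] at hMr ⊢
        rw [← hr] at hlr ⊢
        have e1 : 0 ≤ Real.log E * r := mul_nonneg hlE hlr
        have e2 : 0 ≤ m * Real.log s * r := mul_nonneg (mul_nonneg hMr.le hls) hlr
        nlinarith
      linarith)
    have h2 : (Q1.card : ℝ) ≤ 2 * ((Q1.image (tx L b)).card : ℝ) := by exact_mod_cast hfib
    refine h2.trans (mul_le_mul_of_nonneg_left (h1.trans ?_) (by norm_num))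
    apply mul_le_mul_of_nonneg_left _ hC₁.le
    exact Real.rpow_le_rpow (Nat.cast_nonneg _) (Nat.floor_le hX0.le) (by positivity)
  have hXp : 1 ≤ X ^ (1 / (k : ℝ) + ε) := Real.one_le_rpow hX (by positivity)
  have b2' : (Q2.card : ℝ) ≤ (((2 * A + 1) ^ (n + 1) : ℕ) : ℝ) * X ^ (1 / (k : ℝ) + ε) := by
    have : (Q2.card : ℝ) ≤ (((2 * A + 1) ^ (n + 1) : ℕ) : ℝ) := by exact_mod_cast b2
    exact this.trans (le_mul_of_one_le_right (Nat.cast_nonneg _) hXp)
  calc (Q.card : ℝ) = (Q1.card : ℝ) + (Q2.card : ℝ) := by exact_mod_cast hsplit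
    _ ≤ 2 * (C₁ * X ^ (1 / (k : ℝ) + ε)) +
        (((2 * A + 1) ^ (n + 1) : ℕ) : ℝ) * X ^ (1 / (k : ℝ) + ε) := add_le_add b1 b2'
    _ = _ := by ring

end

end Pool.Agent.H583.AR
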