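import Pool.Agent.H583.AR.Total

/-!
From the rational points off an arrangement to ratios.
-/

set_option autoImplicit false

namespace Pool.Agent.H583.AR

open Finset Pool.Agent.T2H20.ABC Pool.Agent.T2H20.AH Pool.Agent.H785R2.ABC Pool.Agent.H583.SF
  Pool.Agent.H583.WT

section

variable {n q k : ℕ}

/-- the value of the linear form `L i` at `x` -/
def vl (L : Fin q → Fin (n + 1) → ℤ) (x : Fin (n + 1) → ℤ) (i : Fin q) : ℤ := ∑ l, L i l * x l

/-- the ratios of the values of the forms of the basis -/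
def tx (L : Fin q → Fin (n + 1) → ℤ) (b : Fin (n + 1) → Fin q) (x : Fin (n + 1) → ℤ) :
    Fin (n + 1) → ℚ := fun i => (vl L x (b i) : ℚ) / vl L x (b 0)

/-- the matrix of the basis -/
def mx (L : Fin q → Fin (n + 1) → ℤ) (b : Fin (n + 1) → Fin q) :
    Matrix (Fin (n + 1)) (Fin (n + 1)) ℤ := Matrix.of fun i l => L (b i) l

lemma mx_mulVec (L : Fin q → Fin (n + 1) → ℤ) (b : Fin (n + 1) → Fin q) (x : Fin (n + 1) → ℤ) :
    (mx L b).mulVec x = fun i => vl L x (b i) := by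
  funext i
  rfl

/-- the values of the forms in terms of the reduced ratio -/
lemma scale {L : Fin q → Fin (n + 1) → ℤ} {b : Fin (n + 1) → Fin q} {x : Fin (n + 1) → ℤ}
    (h0 : ∀ i, vl L x i ≠ 0) (i j : Fin (n + 1)) : ∃ g : ℤ, g ≠ 0 ∧
      vl L x (b i) = g * (ra (tx L b x) i j).1 ∧ vl L x (b j) = g * (ra (tx L b x) i j).2 := by
  have hi := h0 (b i)
  have hj := h0 (b j)
  have h00 := h0 (b 0)
  have e : tx L b x i / tx L b x j = (vl L x (b i) : ℚ) / vl L x (b j) := by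
    unfold tx
    have h1 : (vl L x (b i) : ℚ) ≠ 0 := by exact_mod_cast hi
    have h2 : (vl L x (b j) : ℚ) ≠ 0 := by exact_mod_cast hj
    have h3 : (vl L x (b 0) : ℚ) ≠ 0 := by exact_mod_cast h00
    field_simp
  obtain ⟨r, hr⟩ : ∃ r : ℚ, r = tx L b x i / tx L b x j := ⟨_, rfl⟩
  have hra : ra (tx L b x) i j = (r.num, (r.den : ℤ)) := by rw [hr]; rfl
  rw [hra]
  simp only
  -- `y_i * den = y_j * num`
  have h2 : (vl L x (b j) : ℚ) ≠ 0 := by exact_mod_cast hj
  have hmul : vl L x (b i) * (r.den : ℤ) = vl L x (b j) * r.num := by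
    have h3 : (vl L x (b i) : ℚ) = r * vl L x (b j) := by
      rw [hr, e]; field_simp
    have h4 : (r.num : ℚ) = r * r.den := (Rat.mul_den_eq_num r).symm
    have h5 : (vl L x (b i) : ℚ) * (r.den : ℚ) = vl L x (b j) * (r.num : ℚ) := by
      rw [h3, h4]; ring
    exact_mod_cast h5
  have hcop : IsCoprime (r.den : ℤ) r.num := by
    rw [Int.isCoprime_iff_gcd_eq_one, Int.gcd_comm]
    exact r.reduced
  have hdvd : (r.den : ℤ) ∣ vl L x (b j) := by
    apply hcop.dvd_of_dvd_mul_right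
    rw [← hmul]
    exact Dvd.intro_left _ rfl
  obtain ⟨g, hg⟩ := hdvd
  have hden : (r.den : ℤ) ≠ 0 := by exact_mod_cast r.den_ne_zero
  refine ⟨g, ?_, ?_, by rw [hg]; ring⟩
  · rintro rfl
    exact hj (by rw [hg, mul_zero])
  · apply mul_right_cancel₀ hden
    rw [hmul, hg]
    ring

/-- the hypotheses on the arrangement: a basis `b`, and for each pair of forms of the basis the
relations `c L_f = F.1 L_i + F.2 L_j` with the forms of the pencil -/
structure Rels (L : Fin q → Fin (n + 1) → ℤ) (b : Fin (n + 1) → Fin q)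
    (F : Fin (n + 1) → Fin (n + 1) → Fin k → ℤ × ℤ) (f : Fin (n + 1) → Fin (n + 1) → Fin k → Fin q)
    (c : Fin (n + 1) → Fin (n + 1) → Fin k → ℤ) : Prop where
  det : (mx L b).det ≠ 0
  c0 : ∀ i j a, i ≠ j → c i j a ≠ 0
  F0 : ∀ i j, i ≠ j → ∀ a a', a ≠ a' → SF.det (F i j) a a' ≠ 0
  rel : ∀ i j, i ≠ j → ∀ a l, c i j a * L (f i j a) l =
    (F i j a).1 * L (b i) l + (F i j a).2 * L (b j) l

/-- the finite set of primes -/
def S1 (S : Finset ℕ) (F : Fin (n + 1) → Fin (n + 1) → Fin k → ℤ × ℤ)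
    (c : Fin (n + 1) → Fin (n + 1) → Fin k → ℤ) : Finset ℕ :=
  (S.filter Nat.Prime ∪ (univ : Finset (Fin (n + 1) × Fin (n + 1) × Fin k × Fin k)).biUnion
    fun z => (SF.det (F z.1 z.2.1) z.2.2.1 z.2.2.2).natAbs.primeFactors) ∪
  (univ : Finset (Fin (n + 1) × Fin (n + 1) × Fin k)).biUnion
    fun z => (c z.1 z.2.1 z.2.2).natAbs.primeFactors

lemma S1_prime {S : Finset ℕ} {F : Fin (n + 1) → Fin (n + 1) → Fin k → ℤ × ℤ}
    {c : Fin (n + 1) → Fin (n + 1) → Fin k → ℤ} {p : ℕ} (h : p ∈ S1 S F c) : p.Prime := by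
  unfold S1 at h
  rw [mem_union, mem_union, mem_filter, mem_biUnion, mem_biUnion] at h
  rcases h with (h | ⟨z, -, h⟩) | ⟨z, -, h⟩
  · exact h.2
  · exact Nat.prime_of_mem_primeFactors h
  · exact Nat.prime_of_mem_primeFactors h

lemma S1_det {S : Finset ℕ} {F : Fin (n + 1) → Fin (n + 1) → Fin k → ℤ × ℤ}
    {c : Fin (n + 1) → Fin (n + 1) → Fin k → ℤ} (i j : Fin (n + 1)) (a a' : Fin k) :
    (SF.det (F i j) a a').natAbs.primeFactors ⊆ S1 S F c := by
  intro p hp
  unfold S1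
  rw [mem_union, mem_union]
  exact Or.inl (Or.inr (mem_biUnion.2 ⟨(i, j, a, a'), mem_univ _, hp⟩))

lemma S1_c {S : Finset ℕ} {F : Fin (n + 1) → Fin (n + 1) → Fin k → ℤ × ℤ}
    {c : Fin (n + 1) → Fin (n + 1) → Fin k → ℤ} (i j : Fin (n + 1)) (a : Fin k) :
    (c i j a).natAbs.primeFactors ⊆ S1 S F c := by
  intro p hp
  unfold S1
  rw [mem_union]
  exact Or.inr (mem_biUnion.2 ⟨(i, j, a), mem_univ _, hp⟩)

lemma S1_S {S : Finset ℕ} {F : Fin (n + 1) → Fin (n + 1) → Fin k → ℤ × ℤ}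
    {c : Fin (n + 1) → Fin (n + 1) → Fin k → ℤ} {p : ℕ} (hp : p.Prime) (h : p ∉ S1 S F c) :
    p ∉ S := by
  intro hS
  apply h
  unfold S1
  rw [mem_union, mem_union]
  exact Or.inl (Or.inl (mem_filter.2 ⟨hS, hp⟩))

variable {L : Fin q → Fin (n + 1) → ℤ} {b : Fin (n + 1) → Fin q}
    {F : Fin (n + 1) → Fin (n + 1) → Fin k → ℤ × ℤ} {f : Fin (n + 1) → Fin (n + 1) → Fin k → Fin q}
    {c : Fin (n + 1) → Fin (n + 1) → Fin k → ℤ}

lemma rel_val (H : Rels L b F f c) {x : Fin (n + 1) → ℤ} {i j : Fin (n + 1)} (hij : i ≠ j)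
    (a : Fin k) : c i j a * vl L x (f i j a) = (F i j a).1 * vl L x (b i) +
      (F i j a).2 * vl L x (b j) := by
  unfold vl
  rw [Finset.mul_sum, Finset.mul_sum, Finset.mul_sum, ← Finset.sum_add_distrib]
  apply Finset.sum_congr rfl
  intro l _
  rw [← mul_assoc, H.rel i j hij a l]
  ring

lemma rel_scale (H : Rels L b F f c) {x : Fin (n + 1) → ℤ} (h0 : ∀ i, vl L x i ≠ 0)
    {i j : Fin (n + 1)} (hij : i ≠ j) : ∃ g : ℤ, g ≠ 0 ∧ ∀ a : Fin k,
      c i j a * vl L x (f i j a) = g * SF.val (F i j) a (ra (tx L b x) i j) := by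
  obtain ⟨g, hg, h1, h2⟩ := scale (b := b) h0 i j
  refine ⟨g, hg, fun a => ?_⟩
  rw [rel_val H hij a, h1, h2]
  unfold SF.val
  ring

lemma val_ne (H : Rels L b F f c) {x : Fin (n + 1) → ℤ} (h0 : ∀ i, vl L x i ≠ 0)
    {i j : Fin (n + 1)} (hij : i ≠ j) (a : Fin k) : SF.val (F i j) a (ra (tx L b x) i j) ≠ 0 := by
  obtain ⟨g, hg, h1⟩ := rel_scale H h0 hij
  intro h2
  have h3 := h1 a
  rw [h2, mul_zero] at h3
  exact mul_ne_zero (H.c0 i j a hij) (h0 _) h3

lemma adm (H : Rels L b F f c) {x : Fin (n + 1) → ℤ} (h0 : ∀ i, vl L x i ≠ 0) :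
    Adm F (tx L b x) := by
  refine ⟨?_, ?_, ?_⟩
  · unfold tx
    exact div_self (by exact_mod_cast h0 (b 0))
  · intro i
    unfold tx
    exact div_ne_zero (by exact_mod_cast h0 (b i)) (by exact_mod_cast h0 (b 0))
  · intro i j hij
    unfold fv
    exact Finset.prod_ne_zero_iff.2 fun a _ => val_ne H h0 hij a

/-- the bad primes divide a value of a form -/
lemma bad_sub (H : Rels L b F f c) {x : Fin (n + 1) → ℤ} (h0 : ∀ i, vl L x i ≠ 0) (S : Finset ℕ) :
    bad F (S1 S F c) (tx L b x) univ ⊆ (∏ i, vl L x i).natAbs.primeFactors \ S := by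
  intro p hp
  have hpp := bad_prime hp
  obtain ⟨⟨i, j⟩, -, h⟩ := mem_biUnion.1 hp
  unfold badp at h
  simp only at h
  by_cases hij : i = j
  · rw [if_pos hij] at h
    exact absurd h (notMem_empty p)
  rw [if_neg hij, mem_sdiff] at h
  obtain ⟨h1, h2⟩ := h
  rw [mem_sdiff]
  refine ⟨?_, S1_S hpp h2⟩
  have h3 : p ∣ (fv F (tx L b x) i j).natAbs := Nat.dvd_of_mem_primeFactors h1
  have h4 : (p : ℤ) ∣ fv F (tx L b x) i j := Int.natCast_dvd.2 h3
  unfold fv at h4
  obtain ⟨a, -, ha⟩ := ((Nat.prime_iff_prime_int.1 hpp).dvd_finsetProd_iff _).1 h4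
  obtain ⟨g, hg, h5⟩ := rel_scale H h0 hij
  have h6 : (p : ℤ) ∣ c i j a * vl L x (f i j a) := by
    rw [h5 a]
    exact Dvd.dvd.mul_left ha g
  rcases (Nat.prime_iff_prime_int.1 hpp).dvd_or_dvd h6 with h7 | h7
  · exfalso
    apply h2
    apply S1_c i j a
    exact Nat.mem_primeFactors.2 ⟨hpp, Int.natCast_dvd.1 h7, Int.natAbs_ne_zero.2 (H.c0 i j a hij)⟩
  · rw [Nat.mem_primeFactors]
    refine ⟨hpp, Int.natCast_dvd.1 (h7.trans (Finset.dvd_prod_of_mem _ (mem_univ _))), ?_⟩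
    exact Int.natAbs_ne_zero.2 (Finset.prod_ne_zero_iff.2 fun i _ => h0 i)

/-- a point is determined by the ratios up to the sign -/
lemma tx_inj (hdet : (mx L b).det ≠ 0) {x y : Fin (n + 1) → ℤ} (hx : univ.gcd x = 1)
    (hy : univ.gcd y = 1) (h0 : ∀ i, vl L x i ≠ 0) (h0' : ∀ i, vl L y i ≠ 0)
    (h : tx L b x = tx L b y) : y = x ∨ y = -x := by
  obtain ⟨u, hu⟩ : ∃ u, u = vl L x (b 0) := ⟨_, rfl⟩
  obtain ⟨v, hv⟩ : ∃ v, v = vl L y (b 0) := ⟨_, rfl⟩
  have hu0 : u ≠ 0 := by rw [hu]; exact h0 _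
  have hv0 : v ≠ 0 := by rw [hv]; exact h0' _
  have h1 : ∀ i, v * vl L x (b i) = u * vl L y (b i) := by
    intro i
    have h2 := congrFun h i
    unfold tx at h2
    rw [← hu, ← hv, div_eq_div_iff (by exact_mod_cast hu0) (by exact_mod_cast hv0)] at h2
    have h3 : vl L x (b i) * v = vl L y (b i) * u := by exact_mod_cast h2
    linarith
  have h2 : (mx L b).mulVec (fun l => v * x l - u * y l) = 0 := by
    rw [mx_mulVec]
    funext i
    have : vl L (fun l => v * x l - u * y l) (b i) = v * vl L x (b i) - u * vl L y (b i) := by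
      unfold vl
      rw [Finset.mul_sum, Finset.mul_sum, ← Finset.sum_sub_distrib]
      exact Finset.sum_congr rfl fun l _ => by ring
    rw [this, h1 i, sub_self]
    rfl
  have h3 := Matrix.eq_zero_of_mulVec_eq_zero hdet h2
  have h4 : ∀ l, v * x l = u * y l := fun l => by
    have := congrFun h3 l
    simp only [Pi.zero_apply] at this
    linarith
  have h5 : univ.gcd (fun l => v * x l) = univ.gcd (fun l => u * y l) := by
    congr 1
    funext l
    exact h4 l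
  rw [Finset.gcd_mul_left, Finset.gcd_mul_left, hx, hy, mul_one, mul_one] at h5
  have h6 : |v| = |u| := by
    rw [Int.abs_eq_normalize, Int.abs_eq_normalize]
    exact h5
  rcases abs_eq_abs.1 h6 with h7 | h7
  · left
    funext l
    have := h4 l
    rw [h7] at this
    exact (mul_left_cancel₀ hu0 this).symm
  · right
    funext l
    have := h4 l
    rw [h7] at this
    have h8 : u * (-x l) = u * y l := by linarith
    have h9 := mul_left_cancel₀ hu0 h8
    rw [Pi.neg_apply]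
    exact h9.symm

/-- the height of a point is bounded in terms of the heights of the ratios -/
lemma height_le (hdet : (mx L b).det ≠ 0) : ∃ E : ℕ, 1 ≤ E ∧ ∀ x : Fin (n + 1) → ℤ,
    univ.gcd x = 1 → (∀ i, vl L x i ≠ 0) → ∀ l, (x l).natAbs ≤
      E * ∏ j, ht (ra (tx L b x) j 0) := by
  classical
  obtain ⟨sm, hsm⟩ : ∃ sm : Fin (n + 1) → ℕ, ∀ l, sm l = ∑ i, ((mx L b).adjugate l i).natAbs :=
    ⟨_, fun l => rfl⟩
  obtain ⟨E, hE⟩ : ∃ E, E = ∑ l, sm l + 1 := ⟨_, rfl⟩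
  refine ⟨E, by omega, ?_⟩
  intro x hx h0 l
  obtain ⟨δ, hδ⟩ : ∃ δ, δ = (mx L b).det := ⟨_, rfl⟩
  have hδ0 : δ ≠ 0 := by rw [hδ]; exact hdet
  -- numerators and denominators
  obtain ⟨P, hP⟩ : ∃ P : ℤ, P = ∏ j, (ra (tx L b x) j 0).2 := ⟨_, rfl⟩
  have hden : ∀ j, (ra (tx L b x) j 0).2 ≠ 0 := fun j => by
    show (((tx L b x j / tx L b x 0).den : ℕ) : ℤ) ≠ 0
    exact_mod_cast (tx L b x j / tx L b x 0).den_ne_zero
  have hP0 : P ≠ 0 := by rw [hP]; exact Finset.prod_ne_zero_iff.2 fun j _ => hden j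
  obtain ⟨w, hw⟩ : ∃ w : Fin (n + 1) → ℤ, ∀ j, w j = (ra (tx L b x) j 0).1 *
      ∏ i ∈ univ.erase j, (ra (tx L b x) i 0).2 := ⟨_, fun j => rfl⟩
  have hPj : ∀ j, P = (ra (tx L b x) j 0).2 * ∏ i ∈ univ.erase j, (ra (tx L b x) i 0).2 := by
    intro j
    rw [hP]
    exact (Finset.mul_prod_erase univ (fun i => (ra (tx L b x) i 0).2) (mem_univ j)).symm
  -- `y_0 w_j = P y_j`
  have hyw : ∀ j, vl L x (b 0) * w j = P * vl L x (b j) := by
    intro j
    obtain ⟨g, hg, h1, h2⟩ := scale (b := b) h0 j 0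
    rw [hw j, hPj j, h1, h2]
    ring
  have hwle : ∀ j, (w j).natAbs ≤ ∏ j, ht (ra (tx L b x) j 0) := by
    intro j
    rw [hw j, Int.natAbs_mul, ← Finset.mul_prod_erase univ (fun j => ht (ra (tx L b x) j 0))
      (mem_univ j)]
    apply Nat.mul_le_mul
    · exact le_max_left _ _
    · have : (∏ i ∈ univ.erase j, (ra (tx L b x) i 0).2).natAbs =
          ∏ i ∈ univ.erase j, ((ra (tx L b x) i 0).2).natAbs := by
        rw [← Int.natAbsHom_apply, map_prod]; rfl
      rw [this]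
      exact Finset.prod_le_prod' fun i _ => le_max_right _ _
  -- `z = adj w`
  obtain ⟨z, hz⟩ : ∃ z : Fin (n + 1) → ℤ, z = (mx L b).adjugate.mulVec w := ⟨_, rfl⟩
  have hadj : (mx L b).adjugate.mulVec (fun i => vl L x (b i)) = fun l => δ * x l := by
    rw [← mx_mulVec, Matrix.mulVec_mulVec, Matrix.adjugate_mul, ← hδ]
    funext l
    rw [Matrix.smul_mulVec, Matrix.one_mulVec]
    rfl
  have hyz : ∀ l, vl L x (b 0) * z l = P * (δ * x l) := by
    intro l
    have h1 := congrFun hadj l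
    rw [← h1, hz]
    simp only [Matrix.mulVec, dotProduct]
    rw [Finset.mul_sum, Finset.mul_sum]
    apply Finset.sum_congr rfl
    intro i _
    have := hyw i
    calc vl L x (b 0) * ((mx L b).adjugate l i * w i) =
          (mx L b).adjugate l i * (vl L x (b 0) * w i) := by ring
      _ = (mx L b).adjugate l i * (P * vl L x (b i)) := by rw [this]
      _ = _ := by ring
  have hdvd : vl L x (b 0) ∣ P * δ := by
    have h1 : vl L x (b 0) ∣ univ.gcd (fun l => P * δ * x l) := by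
      apply Finset.dvd_gcd
      intro l _
      exact ⟨z l, by rw [hyz l]; ring⟩
    rw [Finset.gcd_mul_left, hx, mul_one] at h1
    exact (dvd_normalize_iff).1 h1
  obtain ⟨lam, hlam⟩ := hdvd
  have hlam0 : lam ≠ 0 := by
    rintro rfl
    rw [mul_zero] at hlam
    exact mul_ne_zero hP0 hδ0 hlam
  have hzl : z l = lam * x l := by
    have h1 := hyz l
    apply mul_left_cancel₀ (h0 (b 0))
    rw [h1, ← mul_assoc, hlam]
    ring
  calc (x l).natAbs ≤ lam.natAbs * (x l).natAbs :=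
        Nat.le_mul_of_pos_left _ (Nat.pos_of_ne_zero (Int.natAbs_ne_zero.2 hlam0))
    _ = (z l).natAbs := by rw [hzl, Int.natAbs_mul]
    _ ≤ ∑ i, ((mx L b).adjugate l i * w i).natAbs := by
        rw [hz]
        exact Int.natAbs_sum_le univ (fun i => (mx L b).adjugate l i * w i)
    _ ≤ ∑ i, ((mx L b).adjugate l i).natAbs * ∏ j, ht (ra (tx L b x) j 0) := by
        apply Finset.sum_le_sum
        intro i _
        rw [Int.natAbs_mul]
        exact Nat.mul_le_mul_left _ (hwle i)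
    _ = (∑ i, ((mx L b).adjugate l i).natAbs) * ∏ j, ht (ra (tx L b x) j 0) := by
        rw [Finset.sum_mul]
    _ ≤ E * ∏ j, ht (ra (tx L b x) j 0) := by
        apply Nat.mul_le_mul_right
        have := Finset.single_le_sum (f := sm) (fun _ _ => Nat.zero_le _) (mem_univ l)
        rw [hE, ← hsm l]
        omega

end

end Pool.Agent.H583.AR
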