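import Pool.Agent.H583.WT.F

/-!
Points given by ratios: bad primes, restriction to a set of coordinates, heights.
-/

set_option autoImplicit false

namespace Pool.Agent.H583.AR

open Finset Pool.Agent.T2H20.ABC Pool.Agent.T2H20.AH Pool.Agent.H785R2.ABC Pool.Agent.H583.SF
  Pool.Agent.H583.WT

/-- uniform constants for finitely many products of linear forms -/
theorem formsU (k : ℕ) (hk : 3 ≤ k) {ι : Type} [Fintype ι] (L : ι → Fin k → ℤ × ℤ)
    (hL : ∀ c i j, i ≠ j → det (L c) i j ≠ 0)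
    (ε : ℝ) (hε : 0 < ε) : ∃ M m : ℕ, ∃ C : ℝ, 1 ≤ M ∧ 0 < C ∧ ∀ c : ι, ∀ X Z : ℕ, 1 ≤ X → 1 ≤ Z →
    ∀ (K : Finset ℕ), (∀ i j, i ≠ j → (det (L c) i j).natAbs.primeFactors ⊆ K) →
    ∀ Q : Finset (ℤ × ℤ),
    (∀ p ∈ Q, IsCoprime p.1 p.2 ∧ ∏ i, val (L c) i p ≠ 0 ∧ zr (∏ i, val (L c) i p) ≤ X ∧
      zr (∏ i, val (L c) i p) ^ M ≤ max p.1.natAbs p.2.natAbs ∧ zn K (∏ i, val (L c) i p) ≤ Z) →
    (Q.card : ℝ) ≤ C * (2 ^ K.card) ^ m * (X : ℝ) ^ ε * (Z : ℝ) ^ (1 / (k : ℝ)) := by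
  classical
  have h := fun c => formsW k hk (L c) (hL c) ε hε
  choose M m C h1 h2 h3 using h
  refine ⟨∑ c, M c + 1, ∑ c, m c, ∑ c, C c + 1, by omega, ?_, ?_⟩
  · have : 0 ≤ ∑ c, C c := Finset.sum_nonneg fun c _ => (h2 c).le
    linarith
  intro c X Z hX hZ K hK Q hQ
  have hMc : M c ≤ ∑ c, M c + 1 := by
    have := Finset.single_le_sum (f := M) (fun _ _ => Nat.zero_le _) (Finset.mem_univ c)
    omega
  have hmc : m c ≤ ∑ c, m c :=
    Finset.single_le_sum (f := m) (fun _ _ => Nat.zero_le _) (Finset.mem_univ c)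
  have hCc : C c ≤ ∑ c, C c + 1 := by
    have := Finset.single_le_sum (f := C) (fun c _ => (h2 c).le) (Finset.mem_univ c)
    linarith
  refine (h3 c X Z hX hZ K hK Q ?_).trans ?_
  · intro p hp
    obtain ⟨g1, g2, g3, g4, g5⟩ := hQ p hp
    exact ⟨g1, g2, g3, (Nat.pow_le_pow_right (zr_pos _) hMc).trans g4, g5⟩
  · have hG : (1 : ℝ) ≤ 2 ^ K.card := one_le_pow₀ (by norm_num)
    apply mul_le_mul_of_nonneg_right _ (by positivity)
    apply mul_le_mul_of_nonneg_right _ (by positivity)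
    exact mul_le_mul hCc (pow_le_pow_right₀ hG hmc) (by positivity) ((h2 c).le.trans hCc)

section

variable {n k : ℕ}

/-- the ratio of two coordinates in lowest terms -/
def ra (t : Fin (n + 1) → ℚ) (i j : Fin (n + 1)) : ℤ × ℤ :=
  ((t i / t j).num, ((t i / t j).den : ℤ))

/-- the product of the values of the forms at the ratio of two coordinates -/
def fv (F : Fin (n + 1) → Fin (n + 1) → Fin k → ℤ × ℤ) (t : Fin (n + 1) → ℚ)
    (i j : Fin (n + 1)) : ℤ := ∏ a, val (F i j) a (ra t i j)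

/-- the bad primes of two coordinates -/
def badp (F : Fin (n + 1) → Fin (n + 1) → Fin k → ℤ × ℤ) (S : Finset ℕ) (t : Fin (n + 1) → ℚ)
    (ij : Fin (n + 1) × Fin (n + 1)) : Finset ℕ :=
  if ij.1 = ij.2 then ∅ else (fv F t ij.1 ij.2).natAbs.primeFactors \ S

/-- the bad primes of the coordinates in `I` -/
def bad (F : Fin (n + 1) → Fin (n + 1) → Fin k → ℤ × ℤ) (S : Finset ℕ) (t : Fin (n + 1) → ℚ)
    (I : Finset (Fin (n + 1))) : Finset ℕ := (I ×ˢ I).biUnion (badp F S t)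

/-- the restriction to the coordinates in `I` -/
def restr (I : Finset (Fin (n + 1))) (t : Fin (n + 1) → ℚ) : Fin (n + 1) → ℚ :=
  fun i => if i ∈ I then t i else 0

variable {F : Fin (n + 1) → Fin (n + 1) → Fin k → ℤ × ℤ} {S : Finset ℕ}

lemma restr_mem {I : Finset (Fin (n + 1))} {t : Fin (n + 1) → ℚ} {i : Fin (n + 1)} (h : i ∈ I) :
    restr I t i = t i := if_pos h

lemma restr_restr {I J : Finset (Fin (n + 1))} (h : J ⊆ I) (t : Fin (n + 1) → ℚ) :
    restr J (restr I t) = restr J t := by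
  funext i
  unfold restr
  by_cases hi : i ∈ J
  · rw [if_pos hi, if_pos hi, if_pos (h hi)]
  · rw [if_neg hi, if_neg hi]

lemma ra_restr {I : Finset (Fin (n + 1))} {t : Fin (n + 1) → ℚ} {i j : Fin (n + 1)} (hi : i ∈ I)
    (hj : j ∈ I) : ra (restr I t) i j = ra t i j := by
  unfold ra
  rw [restr_mem hi, restr_mem hj]

lemma fv_restr {I : Finset (Fin (n + 1))} {t : Fin (n + 1) → ℚ} {i j : Fin (n + 1)} (hi : i ∈ I)
    (hj : j ∈ I) : fv F (restr I t) i j = fv F t i j := by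
  unfold fv
  rw [ra_restr hi hj]

lemma bad_restr {I J : Finset (Fin (n + 1))} (h : J ⊆ I) (t : Fin (n + 1) → ℚ) :
    bad F S (restr I t) J = bad F S t J := by
  unfold bad
  apply Finset.biUnion_congr rfl
  intro ij hij
  rw [mem_product] at hij
  unfold badp
  rw [fv_restr (h hij.1) (h hij.2)]

lemma bad_mono {I J : Finset (Fin (n + 1))} (h : J ⊆ I) (t : Fin (n + 1) → ℚ) :
    bad F S t J ⊆ bad F S t I :=
  Finset.biUnion_subset_biUnion_of_subset_left _ (product_subset_product h h)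

lemma mem_bad {t : Fin (n + 1) → ℚ} {I : Finset (Fin (n + 1))} {i j : Fin (n + 1)} (hi : i ∈ I)
    (hj : j ∈ I) (hij : i ≠ j) : (fv F t i j).natAbs.primeFactors \ S ⊆ bad F S t I := by
  intro p hp
  refine mem_biUnion.2 ⟨(i, j), mem_product.2 ⟨hi, hj⟩, ?_⟩
  unfold badp
  rw [if_neg hij]
  exact hp

lemma bad_prime {t : Fin (n + 1) → ℚ} {I : Finset (Fin (n + 1))} {p : ℕ} (hp : p ∈ bad F S t I) :
    p.Prime := by
  obtain ⟨ij, -, h⟩ := mem_biUnion.1 hp
  unfold badp at h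
  split_ifs at h with h1
  · exact absurd h (notMem_empty p)
  · exact Nat.prime_of_mem_primeFactors (mem_sdiff.1 h).1

/-- the product of the bad primes -/
def Rb (F : Fin (n + 1) → Fin (n + 1) → Fin k → ℤ × ℤ) (S : Finset ℕ) (t : Fin (n + 1) → ℚ)
    (I : Finset (Fin (n + 1))) : ℕ := ∏ p ∈ bad F S t I, p

/-- the product of the new bad primes -/
def nu (F : Fin (n + 1) → Fin (n + 1) → Fin k → ℤ × ℤ) (S : Finset ℕ) (t : Fin (n + 1) → ℚ)
    (I J : Finset (Fin (n + 1))) : ℕ := ∏ p ∈ bad F S t J \ bad F S t I, p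

lemma Rb_pos (t : Fin (n + 1) → ℚ) (I : Finset (Fin (n + 1))) : 0 < Rb F S t I :=
  Finset.prod_pos fun _ hp => (bad_prime hp).pos

lemma nu_pos (t : Fin (n + 1) → ℚ) (I J : Finset (Fin (n + 1))) : 0 < nu F S t I J :=
  Finset.prod_pos fun _ hp => (bad_prime (mem_sdiff.1 hp).1).pos

lemma Rb_mul_nu {I J : Finset (Fin (n + 1))} (h : I ⊆ J) (t : Fin (n + 1) → ℚ) :
    Rb F S t I * nu F S t I J = Rb F S t J := by
  unfold Rb nu
  rw [mul_comm]
  exact Finset.prod_sdiff (bad_mono h t)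

lemma Rb_mono {I J : Finset (Fin (n + 1))} (h : I ⊆ J) (t : Fin (n + 1) → ℚ) :
    Rb F S t I ≤ Rb F S t J := by
  rw [← Rb_mul_nu h]
  exact Nat.le_mul_of_pos_right _ (nu_pos t I J)

/-- the radical of the product of the values is bounded -/
lemma zr_le {t : Fin (n + 1) → ℚ} {I : Finset (Fin (n + 1))} {i j : Fin (n + 1)} (hi : i ∈ I)
    (hj : j ∈ I) (hij : i ≠ j) (hS : ∀ p ∈ S, p.Prime) :
    zr (fv F t i j) ≤ (∏ p ∈ S, p) * Rb F S t I := by
  classical
  have h1 : (fv F t i j).natAbs.primeFactors ⊆ S ∪ bad F S t I := by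
    intro p hp
    by_cases hpS : p ∈ S
    · exact mem_union_left _ hpS
    · exact mem_union_right _ (mem_bad hi hj hij (mem_sdiff.2 ⟨hp, hpS⟩))
  have h2 : Disjoint S (bad F S t I) := by
    rw [Finset.disjoint_left]
    intro p hp hp'
    obtain ⟨ij, -, h⟩ := mem_biUnion.1 hp'
    unfold badp at h
    split_ifs at h with h1
    · exact absurd h (notMem_empty p)
    · exact (mem_sdiff.1 h).2 hp
  unfold zr rad Rb
  rw [← Finset.prod_union h2]
  apply Finset.prod_le_prod_of_subset_of_one_le' h1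
  intro p hp _
  rcases mem_union.1 hp with h | h
  · exact (hS p h).one_lt.le
  · exact (bad_prime h).one_lt.le

/-- the new primes at a step -/
lemma zn_le {t : Fin (n + 1) → ℚ} {I : Finset (Fin (n + 1))} {i l : Fin (n + 1)} (hi : i ∈ I)
    (hil : l ≠ i) :
    zn (S ∪ bad F S t I) (fv F t l i) ≤ nu F S t I (insert l I) := by
  classical
  unfold zn nr nu
  apply Finset.prod_le_prod_of_subset_of_one_le'
  · intro p hp
    rw [mem_sdiff, mem_union, not_or] at hp
    rw [mem_sdiff]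
    exact ⟨mem_bad (mem_insert_self _ _) (mem_insert_of_mem hi) hil (mem_sdiff.2 ⟨hp.1, hp.2.1⟩),
      hp.2.2⟩
  · intro p hp _
    exact (bad_prime (mem_sdiff.1 hp).1).one_lt.le

/-- the height of a pair -/
def ht (p : ℤ × ℤ) : ℕ := max p.1.natAbs p.2.natAbs

lemma ra_coprime (t : Fin (n + 1) → ℚ) (i j : Fin (n + 1)) : IsCoprime (ra t i j).1 (ra t i j).2 := by
  unfold ra
  rw [Int.isCoprime_iff_gcd_eq_one]
  exact (t i / t j).reduced

lemma rat_ht_div (a b : ℚ) (hb : b ≠ 0) : max (a / b).num.natAbs (a / b).den ≤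
    max a.num.natAbs a.den * max b.num.natAbs b.den := by
  have hb' : b.num ≠ 0 := Rat.num_ne_zero.2 hb
  rcases eq_or_ne a 0 with ha | ha
  · subst ha
    have h1 := b.den_pos
    simp only [zero_div, Rat.num_zero, Int.natAbs_zero, Rat.den_zero]
    have h2 : 1 ≤ max b.num.natAbs b.den := le_max_of_le_right h1
    have h3 : max 0 1 = 1 := rfl
    rw [h3, one_mul]
    exact h2
  have ha' : a.num ≠ 0 := Rat.num_ne_zero.2 ha
  have e : a / b = Rat.divInt (a.num * b.den) (a.den * b.num) := by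
    rw [Rat.divInt_eq_div]
    push_cast
    have h1 : (a.num : ℚ) / a.den = a := Rat.num_div_den a
    have h2 : (b.num : ℚ) / b.den = b := Rat.num_div_den b
    have h3 : (a.den : ℚ) ≠ 0 := by exact_mod_cast a.den_ne_zero
    have h4 : (b.den : ℚ) ≠ 0 := by exact_mod_cast b.den_ne_zero
    have h5 : (b.num : ℚ) ≠ 0 := by exact_mod_cast hb'
    conv_lhs => rw [← h1, ← h2]
    field_simp
  have hd : (a.den : ℤ) * b.num ≠ 0 := mul_ne_zero (by exact_mod_cast a.den_ne_zero) hb'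
  have hn : (a.num * b.den : ℤ) ≠ 0 := mul_ne_zero ha' (by exact_mod_cast b.den_ne_zero)
  apply max_le
  · have h1 : (a / b).num ∣ a.num * b.den := by
      rw [e]; exact Rat.num_dvd _ hd
    have h2 := Int.natAbs_dvd_natAbs.2 h1
    refine (Nat.le_of_dvd (Nat.pos_of_ne_zero (Int.natAbs_ne_zero.2 hn)) h2).trans ?_
    rw [Int.natAbs_mul, Int.natAbs_natCast]
    exact Nat.mul_le_mul (le_max_left _ _) (le_max_right _ _)
  · have h1 : ((a / b).den : ℤ) ∣ a.den * b.num := by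
      rw [e]; exact Rat.den_dvd _ _
    have h2 := Int.natAbs_dvd_natAbs.2 h1
    rw [Int.natAbs_natCast] at h2
    refine (Nat.le_of_dvd (Nat.pos_of_ne_zero (Int.natAbs_ne_zero.2 hd)) h2).trans ?_
    rw [Int.natAbs_mul, Int.natAbs_natCast]
    exact Nat.mul_le_mul (le_max_right _ _) (le_max_left _ _)

lemma ht_ra (t : Fin (n + 1) → ℚ) (i j : Fin (n + 1)) :
    ht (ra t i j) = max (t i / t j).num.natAbs (t i / t j).den := by
  unfold ht ra
  rw [Int.natAbs_natCast]

/-- the two out of three property -/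
lemma ht_two {t : Fin (n + 1) → ℚ} (h0 : ∀ i, t i ≠ 0) (i j l : Fin (n + 1)) :
    ht (ra t j i) ≤ ht (ra t l i) * ht (ra t l j) := by
  rw [ht_ra, ht_ra, ht_ra]
  have e : t j / t i = (t l / t i) / (t l / t j) := by
    have h1 := h0 i
    have h2 := h0 j
    have h3 := h0 l
    field_simp
  rw [e]
  exact rat_ht_div _ _ (div_ne_zero (h0 l) (h0 j))

end

end Pool.Agent.H583.AR
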