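import Pool.Agent.H583.AR.Step

/-!
The number of the exceptional points.
-/

set_option autoImplicit false

namespace Pool.Agent.H583.AR

open Finset Pool.Agent.T2H20.ABC Pool.Agent.T2H20.AH Pool.Agent.H785R2.ABC Pool.Agent.H583.SF
  Pool.Agent.H583.WT

/-- the coordinate added at a step -/
def sq (n : ℕ) (j : Fin (n + 1)) (m : ℕ) : Fin (n + 1) := if m = 0 then j else Fin.ofNat (n + 1) m

/-- the chain of sets of coordinates -/
def ch (n : ℕ) (j : Fin (n + 1)) : ℕ → Finset (Fin (n + 1))
  | 0 => {0}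
  | m + 1 => insert (sq n j m) (ch n j m)

lemma ch_succ (n : ℕ) (j : Fin (n + 1)) (m : ℕ) : ch n j (m + 1) = insert (sq n j m) (ch n j m) := rfl

lemma ch_mono (n : ℕ) (j : Fin (n + 1)) {a b : ℕ} (h : a ≤ b) : ch n j a ⊆ ch n j b := by
  induction b, h using Nat.le_induction with
  | base => exact subset_rfl
  | succ b _ ih => exact ih.trans (subset_insert _ _)

lemma zero_mem_ch (n : ℕ) (j : Fin (n + 1)) (m : ℕ) : (0 : Fin (n + 1)) ∈ ch n j m :=
  ch_mono n j (Nat.zero_le m) (mem_singleton_self 0)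

lemma j_mem_ch (n : ℕ) (j : Fin (n + 1)) {m : ℕ} (h : 1 ≤ m) : j ∈ ch n j m := by
  apply ch_mono n j h
  rw [ch_succ]
  exact mem_insert_self _ _

lemma ch_univ (n : ℕ) (j : Fin (n + 1)) : ch n j (n + 1) = univ := by
  rw [eq_univ_iff_forall]
  intro i
  rcases Nat.eq_zero_or_pos i.val with h | h
  · have : i = 0 := Fin.ext h
    rw [this]
    exact zero_mem_ch n j _
  · have h1 : sq n j i.val = i := by
      unfold sq
      rw [if_neg (by omega)]
      apply Fin.ext
      simp [Fin.ofNat, Nat.mod_eq_of_lt i.isLt]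
    have h2 : i ∈ ch n j (i.val + 1) := by
      rw [ch_succ, h1]
      exact mem_insert_self _ _
    exact ch_mono n j (by have := i.isLt; omega) h2

section

variable {n k : ℕ}

/-- the product of the new primes at a step of the chain -/
def NU (F : Fin (n + 1) → Fin (n + 1) → Fin k → ℤ × ℤ) (S : Finset ℕ) (j : Fin (n + 1))
    (t : Fin (n + 1) → ℚ) (m : ℕ) : ℕ := nu F S t (ch n j m) (ch n j (m + 1))

lemma prod_NU (F : Fin (n + 1) → Fin (n + 1) → Fin k → ℤ × ℤ) (S : Finset ℕ) (j : Fin (n + 1))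
    (t : Fin (n + 1) → ℚ) (N : ℕ) :
    Rb F S t (ch n j 0) * ∏ m ∈ range N, NU F S j t m = Rb F S t (ch n j N) := by
  induction N with
  | zero => simp
  | succ N ih =>
    rw [Finset.prod_range_succ, ← mul_assoc, ih]
    exact Rb_mul_nu (ch_mono n j (Nat.le_succ N)) t

lemma prod_NU_le (F : Fin (n + 1) → Fin (n + 1) → Fin k → ℤ × ℤ) (S : Finset ℕ) (j : Fin (n + 1))
    (t : Fin (n + 1) → ℚ) : ∏ m ∈ range (n + 1), NU F S j t m ≤ Rb F S t univ := by
  rw [← ch_univ n j, ← prod_NU F S j t (n + 1)]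
  exact Nat.le_mul_of_pos_left _ (Rb_pos t _)

end

open Classical in
/-- **the points of a dyadic class** -/
theorem chain_count (k : ℕ) (hk : 3 ≤ k) (n : ℕ) (F : Fin (n + 1) → Fin (n + 1) → Fin k → ℤ × ℤ)
    (hF : ∀ i j, i ≠ j → ∀ a b, a ≠ b → det (F i j) a b ≠ 0) (S : Finset ℕ)
    (hS : ∀ p ∈ S, p.Prime)
    (hd : ∀ i j, i ≠ j → ∀ a b, a ≠ b → (det (F i j) a b).natAbs.primeFactors ⊆ S)
    (ε : ℝ) (hε : 0 < ε) : ∃ M : ℕ, ∃ C : ℝ, 1 ≤ M ∧ 1 ≤ C ∧ ∀ X : ℕ, 1 ≤ X →
    ∀ (j : Fin (n + 1)), j ≠ 0 → ∀ Q : Finset (Fin (n + 1) → ℚ),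
    (∀ t ∈ Q, Adm F t ∧ Rb F S t univ ≤ X ∧
      ((∏ p ∈ S, p) * Rb F S t univ) ^ (2 * M) ≤ ht (ra t j 0)) →
    ∀ Z : ℕ → ℕ, (∀ m, 1 ≤ Z m) → ∀ N : ℕ, (∀ t ∈ Q, ∀ m < N, NU F S j t m ≤ Z m) →
    ((Q.image (restr (ch n j N))).card : ℝ) ≤
      ∏ m ∈ range N, (2 * (C * (X : ℝ) ^ ε * (Z m : ℝ) ^ (1 / (k : ℝ)))) := by
  obtain ⟨M, C, hM, hC, h⟩ := step k hk n F hF S hS hd ε hε
  refine ⟨M, C, hM, hC, ?_⟩
  intro X hX j hj Q hQ Z hZ N
  have hX1 : (1 : ℝ) ≤ X := by exact_mod_cast hX
  have hXe : 1 ≤ (X : ℝ) ^ ε := Real.one_le_rpow hX1 hε.le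
  have hfac : ∀ m, 1 ≤ C * (X : ℝ) ^ ε * (Z m : ℝ) ^ (1 / (k : ℝ)) := by
    intro m
    have hZ1 : (1 : ℝ) ≤ Z m := by exact_mod_cast hZ m
    exact one_le_mul_of_one_le_of_one_le (one_le_mul_of_one_le_of_one_le hC hXe)
      (Real.one_le_rpow hZ1 (by positivity))
  induction N with
  | zero =>
    intro _
    rw [range_zero, prod_empty]
    have : (Q.image (restr (ch n j 0))).card ≤ 1 := by
      rw [card_le_one]
      intro a ha b hb
      rw [mem_image] at ha hb
      obtain ⟨t, ht, rfl⟩ := ha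
      obtain ⟨u, hu, rfl⟩ := hb
      funext i
      unfold restr
      by_cases hi : i ∈ ch n j 0
      · rw [if_pos hi, if_pos hi]
        have : i = 0 := by
          have : i ∈ ({0} : Finset (Fin (n + 1))) := hi
          exact mem_singleton.1 this
        rw [this, (hQ t ht).1.one, (hQ u hu).1.one]
      · rw [if_neg hi, if_neg hi]
    exact_mod_cast this
  | succ N ih =>
    intro hν
    have ih' := ih (fun t ht m hm => hν t ht m (by omega))
    obtain ⟨W, hW⟩ : ∃ W, W = C * (X : ℝ) ^ ε * (Z N : ℝ) ^ (1 / (k : ℝ)) := ⟨_, rfl⟩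
    have hW1 : 1 ≤ W := by rw [hW]; exact hfac N
    rw [Finset.prod_range_succ, ← hW]
    obtain ⟨I, hI⟩ : ∃ I, I = ch n j N := ⟨_, rfl⟩
    obtain ⟨l, hl⟩ : ∃ l, l = sq n j N := ⟨_, rfl⟩
    have hIl : ch n j (N + 1) = insert l I := by rw [hI, hl]; rfl
    rw [hIl]
    rw [← hI] at ih'
    have hP0 : 0 ≤ ∏ m ∈ range N, (2 * (C * (X : ℝ) ^ ε * (Z m : ℝ) ^ (1 / (k : ℝ)))) :=
      Finset.prod_nonneg fun m _ => by have := hfac m; linarith
    by_cases hlI : l ∈ I
    · rw [insert_eq_of_mem hlI]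
      refine ih'.trans ?_
      exact le_mul_of_one_le_right hP0 (by linarith)
    -- the fibres
    have hfib : ∀ τ ∈ Q.image (restr I),
        ((((Q.image (restr (insert l I))).filter fun τ' => restr I τ' = τ).card : ℕ) : ℝ) ≤ 2 * W := by
      intro τ _
      -- the two parts
      set Qi : Fin (n + 1) → Finset (Fin (n + 1) → ℚ) := fun i => Q.filter fun t =>
        restr I t = τ ∧ ((∏ p ∈ S, p) * Rb F S t univ) ^ M ≤ ht (ra t l i) with hQi
      have hQib : ∀ i ∈ I, (((Qi i).image (restr (insert l I))).card : ℝ) ≤ W := by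
        intro i hi
        rw [hW]
        apply h X (Z N) hX (hZ N) I l i hlI hi τ (Qi i)
        intro t ht
        rw [hQi, mem_filter] at ht
        obtain ⟨ht, h1, h2⟩ := ht
        refine ⟨(hQ t ht).1, h1, (hQ t ht).2.1, ?_, h2⟩
        have := hν t ht N (Nat.lt_succ_self N)
        unfold NU at this
        rwa [hIl, ← hI] at this
      have h0I : (0 : Fin (n + 1)) ∈ I := by rw [hI]; exact zero_mem_ch n j N
      rcases Nat.eq_zero_or_pos N with hN | hN
      · -- the first step
        have hlj : l = j := by rw [hl, hN]; rfl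
        have hsub : ((Q.image (restr (insert l I))).filter fun τ' => restr I τ' = τ) ⊆
            (Qi 0).image (restr (insert l I)) := by
          intro τ' hτ'
          rw [mem_filter, mem_image] at hτ'
          obtain ⟨⟨t, ht, rfl⟩, h1⟩ := hτ'
          rw [restr_restr (subset_insert l I)] at h1
          rw [mem_image]
          refine ⟨t, ?_, rfl⟩
          rw [hQi, mem_filter]
          refine ⟨ht, h1, ?_⟩
          rw [hlj]
          refine le_trans (Nat.pow_le_pow_right ?_ (by omega : M ≤ 2 * M)) (hQ t ht).2.2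
          exact Nat.mul_pos (Finset.prod_pos fun p hp => (hS p hp).pos) (Rb_pos t _)
        have h2 := card_le_card hsub
        have h3 := hQib 0 h0I
        have h4 : ((((Q.image (restr (insert l I))).filter fun τ' => restr I τ' = τ).card : ℕ) : ℝ) ≤
            ((Qi 0).image (restr (insert l I))).card := by exact_mod_cast h2
        linarith
      · have hjI : j ∈ I := by rw [hI]; exact j_mem_ch n j hN
        have hsub : ((Q.image (restr (insert l I))).filter fun τ' => restr I τ' = τ) ⊆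
            (Qi 0).image (restr (insert l I)) ∪ (Qi j).image (restr (insert l I)) := by
          intro τ' hτ'
          rw [mem_filter, mem_image] at hτ'
          obtain ⟨⟨t, htQ, rfl⟩, h1⟩ := hτ'
          rw [restr_restr (subset_insert l I)] at h1
          obtain ⟨T, hT⟩ : ∃ T, T = ((∏ p ∈ S, p) * Rb F S t univ) ^ M := ⟨_, rfl⟩
          have h2 := (hQ t htQ).2.2
          rw [two_mul, pow_add, ← hT] at h2
          have h3 := ht_two (hQ t htQ).1.ne 0 j l
          rw [mem_union, mem_image, mem_image]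
          by_cases h4 : T ≤ ht (ra t l 0)
          · left
            refine ⟨t, ?_, rfl⟩
            rw [hQi, mem_filter]
            exact ⟨htQ, h1, by rw [← hT]; exact h4⟩
          · right
            refine ⟨t, ?_, rfl⟩
            rw [hQi, mem_filter]
            refine ⟨htQ, h1, ?_⟩
            rw [← hT]
            by_contra h5
            push Not at h4 h5
            have h6 : ht (ra t l 0) * ht (ra t l j) < T * T := Nat.mul_lt_mul'' h4 h5
            omega
        have h2 := (card_le_card hsub).trans (card_union_le _ _)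
        have h3 := hQib 0 h0I
        have h5 := hQib j hjI
        have h4 : ((((Q.image (restr (insert l I))).filter fun τ' => restr I τ' = τ).card : ℕ) : ℝ) ≤
            ((Qi 0).image (restr (insert l I))).card + ((Qi j).image (restr (insert l I))).card := by
          exact_mod_cast h2
        linarith
    have hsum : ((Q.image (restr (insert l I))).card : ℝ) ≤ (Q.image (restr I)).card * (2 * W) := by
      rw [Finset.card_eq_sum_card_fiberwise (f := restr I) (t := Q.image (restr I)) (by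
        intro τ' hτ'
        rw [mem_coe, mem_image] at hτ'
        obtain ⟨t, ht, rfl⟩ := hτ'
        rw [restr_restr (subset_insert l I), mem_coe]
        exact mem_image_of_mem _ ht)]
      push_cast
      refine (Finset.sum_le_sum hfib).trans ?_
      rw [Finset.sum_const, nsmul_eq_mul]
    exact hsum.trans (mul_le_mul_of_nonneg_right ih' (by linarith))

end Pool.Agent.H583.AR
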