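import Pool.Agent.H583.AR.Basic
import Pool.Graph.R_pool_sql_team_seeded_707910d6.T2H20.AH.Gh

/-!
Adding one coordinate: the number of its values when the others are known.
-/

set_option autoImplicit false

namespace Pool.Agent.H583.AR

open Finset Pool.Agent.T2H20.ABC Pool.Agent.T2H20.AH Pool.Agent.H785R2.ABC Pool.Agent.H583.SF
  Pool.Agent.H583.WT

/-- the number of subsets of a set of primes with a small product -/
lemma two_pow_card (m : ℕ) (ε : ℝ) (hε : 0 < ε) : ∃ D : ℝ, 0 < D ∧ ∀ X : ℕ, ∀ B : Finset ℕ,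
    (∀ p ∈ B, p.Prime) → ∏ p ∈ B, p ≤ X → ((2 : ℝ) ^ B.card) ^ m ≤ D * (X : ℝ) ^ ε := by
  classical
  obtain ⟨D, hD, h⟩ := Pool.Agent.T2H20.AH.div_pow m ε hε
  refine ⟨D, hD, ?_⟩
  intro X B hB hX
  have h1 : 1 ≤ ∏ p ∈ B, p := Finset.prod_pos fun p hp => (hB p hp).pos
  refine le_trans ?_ (h X (∏ p ∈ B, p) h1 hX)
  apply pow_le_pow_left₀ (by positivity)
  have h2 : B.powerset.card ≤ (∏ p ∈ B, p).divisors.card := by
    apply card_le_card_of_injOn (fun s => ∏ p ∈ s, p)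
    · intro s hs
      rw [mem_coe, mem_powerset] at hs
      rw [mem_coe, Nat.mem_divisors]
      exact ⟨Finset.prod_dvd_prod_of_subset _ _ _ hs, by omega⟩
    · intro s hs t ht hst
      rw [mem_coe, mem_powerset] at hs ht
      simp only at hst
      rw [← Nat.primeFactors_prod (fun p hp => hB p (hs hp)), hst,
        Nat.primeFactors_prod (fun p hp => hB p (ht hp))]
  rw [card_powerset] at h2
  exact_mod_cast h2

section

variable {n k : ℕ}

/-- the admissible points: normalised by `t 0 = 1`, nonzero coordinates and values of the forms -/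
structure Adm (F : Fin (n + 1) → Fin (n + 1) → Fin k → ℤ × ℤ) (t : Fin (n + 1) → ℚ) : Prop where
  one : t 0 = 1
  ne : ∀ i, t i ≠ 0
  fv : ∀ i j, i ≠ j → fv F t i j ≠ 0

open Classical in
/-- **adding a coordinate**: given the coordinates in `I`, there are few values of the coordinate `l`
for which the ratio to the coordinate `i ∈ I` has a large height -/
theorem step (k : ℕ) (hk : 3 ≤ k) (n : ℕ) (F : Fin (n + 1) → Fin (n + 1) → Fin k → ℤ × ℤ)
    (hF : ∀ i j, i ≠ j → ∀ a b, a ≠ b → det (F i j) a b ≠ 0) (S : Finset ℕ)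
    (hS : ∀ p ∈ S, p.Prime)
    (hd : ∀ i j, i ≠ j → ∀ a b, a ≠ b → (det (F i j) a b).natAbs.primeFactors ⊆ S)
    (ε : ℝ) (hε : 0 < ε) : ∃ M : ℕ, ∃ C : ℝ, 1 ≤ M ∧ 1 ≤ C ∧ ∀ X Z : ℕ, 1 ≤ X → 1 ≤ Z →
    ∀ (I : Finset (Fin (n + 1))) (l i : Fin (n + 1)), l ∉ I → i ∈ I → ∀ τ : Fin (n + 1) → ℚ,
    ∀ Q : Finset (Fin (n + 1) → ℚ),
    (∀ t ∈ Q, Adm F t ∧ restr I t = τ ∧ Rb F S t univ ≤ X ∧ nu F S t I (insert l I) ≤ Z ∧
      ((∏ p ∈ S, p) * Rb F S t univ) ^ M ≤ ht (ra t l i)) →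
    ((Q.image (restr (insert l I))).card : ℝ) ≤ C * (X : ℝ) ^ ε * (Z : ℝ) ^ (1 / (k : ℝ)) := by
  -- index set of the pairs of different coordinates
  obtain ⟨M, m, C, hM, hC, h⟩ := formsU k hk (ι := {c : Fin (n + 1) × Fin (n + 1) // c.1 ≠ c.2})
    (fun c => F c.1.1 c.1.2) (fun c a b hab => hF _ _ c.2 a b hab) (ε / 2) (by positivity)
  obtain ⟨D, hD, hpow⟩ := two_pow_card m (ε / 2) (by positivity)
  obtain ⟨s, hs⟩ : ∃ s, s = ∏ p ∈ S, p := ⟨_, rfl⟩
  have hs1 : 1 ≤ s := by rw [hs]; exact Finset.prod_pos fun p hp => (hS p hp).pos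
  have hsr : (0 : ℝ) < s := by exact_mod_cast hs1
  refine ⟨M, C * (2 ^ S.card) ^ m * D * (s : ℝ) ^ (ε / 2) + 1, hM, ?_, ?_⟩
  · have : 0 ≤ C * (2 ^ S.card) ^ m * D * (s : ℝ) ^ (ε / 2) := by positivity
    linarith
  intro X Z hX hZ I l i hl hi τ Q hQ
  have hX0 : (0 : ℝ) < X := by exact_mod_cast hX
  have hli : l ≠ i := by rintro rfl; exact hl hi
  rcases Q.eq_empty_or_nonempty with h0 | ⟨t0, ht0⟩
  · rw [h0, image_empty, card_empty, Nat.cast_zero]
    positivity
  -- the known primes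
  obtain ⟨B, hB⟩ : ∃ B, B = bad F S τ I := ⟨_, rfl⟩
  have hBt : ∀ t ∈ Q, bad F S t I = B := by
    intro t ht
    rw [hB, ← (hQ t ht).2.1, bad_restr subset_rfl]
  have hBp : ∀ p ∈ B, p.Prime := fun p hp => by rw [hB] at hp; exact bad_prime hp
  have hBX : ∏ p ∈ B, p ≤ X := by
    rw [← hBt t0 ht0]
    exact (Rb_mono (F := F) (S := S) (subset_univ I) t0).trans (hQ t0 ht0).2.2.1
  -- the pairs
  obtain ⟨V, hV⟩ : ∃ V, V = Q.image (fun t => ra t l i) := ⟨_, rfl⟩
  have hinj : (Q.image (restr (insert l I))).card ≤ V.card := by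
    apply card_le_card_of_injOn (fun t => ra t l i)
    · intro t ht
      rw [mem_coe, mem_image] at ht
      obtain ⟨t', ht', rfl⟩ := ht
      rw [mem_coe, hV, mem_image]
      exact ⟨t', ht', (ra_restr (mem_insert_self _ _) (mem_insert_of_mem hi)).symm⟩
    · intro t ht u hu htu
      rw [mem_coe, mem_image] at ht hu
      obtain ⟨t', ht', rfl⟩ := ht
      obtain ⟨u', hu', rfl⟩ := hu
      simp only at htu
      rw [ra_restr (mem_insert_self _ _) (mem_insert_of_mem hi),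
        ra_restr (mem_insert_self _ _) (mem_insert_of_mem hi)] at htu
      have hII : restr I t' = restr I u' := (hQ t' ht').2.1.trans (hQ u' hu').2.1.symm
      have hj : ∀ j ∈ I, t' j = u' j := by
        intro j hj
        have := congrFun hII j
        rwa [restr_mem hj, restr_mem hj] at this
      have hquot : t' l / t' i = u' l / u' i := by
        unfold ra at htu
        simp only [Prod.mk.injEq, Nat.cast_inj] at htu
        exact Rat.ext htu.1 htu.2
      have hl' : t' l = u' l := by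
        rw [hj i hi] at hquot
        have hne := (hQ u' hu').1.ne i
        exact (div_left_inj' hne).1 hquot
      funext j
      unfold restr
      by_cases hjl : j = l
      · subst hjl
        rw [if_pos (mem_insert_self _ _), if_pos (mem_insert_self _ _), hl']
      · by_cases hjI : j ∈ I
        · rw [if_pos (mem_insert_of_mem hjI), if_pos (mem_insert_of_mem hjI), hj j hjI]
        · have : j ∉ insert l I := by rw [mem_insert, not_or]; exact ⟨hjl, hjI⟩
          rw [if_neg this, if_neg this]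
  have hmain := h ⟨(l, i), hli⟩ (s * X) Z (Nat.mul_pos hs1 hX) hZ (S ∪ B) (by
    intro a b hab
    exact (hd l i hli a b hab).trans subset_union_left) V (by
    intro p hp
    rw [hV, mem_image] at hp
    obtain ⟨t, ht, rfl⟩ := hp
    obtain ⟨g1, g2, g3, g4, g5⟩ := hQ t ht
    have hz := zr_le (F := F) (S := S) (t := t) (I := univ) (mem_univ l) (mem_univ i) hli hS
    refine ⟨ra_coprime t l i, g1.fv l i hli, ?_, ?_, ?_⟩
    · refine hz.trans ?_
      rw [hs]
      exact Nat.mul_le_mul_left _ g3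
    · exact (Nat.pow_le_pow_left hz M).trans g5
    · rw [← hBt t ht]
      exact (zn_le hi hli).trans g4)
  have hcardU : (((2 : ℝ) ^ (S ∪ B).card)) ^ m ≤ ((2 : ℝ) ^ S.card) ^ m * (D * (X : ℝ) ^ (ε / 2)) := by
    calc (((2 : ℝ) ^ (S ∪ B).card)) ^ m ≤ ((2 : ℝ) ^ (S.card + B.card)) ^ m := by
          apply pow_le_pow_left₀ (by positivity)
          exact pow_le_pow_right₀ (by norm_num) (card_union_le S B)
      _ = ((2 : ℝ) ^ S.card) ^ m * ((2 : ℝ) ^ B.card) ^ m := by rw [pow_add, mul_pow]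
      _ ≤ _ := mul_le_mul_of_nonneg_left (hpow X B hBp hBX) (by positivity)
  have hXs : (((s * X : ℕ) : ℝ)) ^ (ε / 2) = (s : ℝ) ^ (ε / 2) * (X : ℝ) ^ (ε / 2) := by
    rw [Nat.cast_mul, Real.mul_rpow hsr.le hX0.le]
  have hXe : (X : ℝ) ^ ε = (X : ℝ) ^ (ε / 2) * (X : ℝ) ^ (ε / 2) := by
    rw [← Real.rpow_add hX0, add_halves]
  calc ((Q.image (restr (insert l I))).card : ℝ) ≤ V.card := by exact_mod_cast hinj
    _ ≤ C * (2 ^ (S ∪ B).card) ^ m * ((s * X : ℕ) : ℝ) ^ (ε / 2) * (Z : ℝ) ^ (1 / (k : ℝ)) := hmain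
    _ ≤ C * (((2 : ℝ) ^ S.card) ^ m * (D * (X : ℝ) ^ (ε / 2))) *
        ((s : ℝ) ^ (ε / 2) * (X : ℝ) ^ (ε / 2)) * (Z : ℝ) ^ (1 / (k : ℝ)) := by
        rw [hXs]
        apply mul_le_mul_of_nonneg_right _ (by positivity)
        apply mul_le_mul_of_nonneg_right _ (by positivity)
        exact mul_le_mul_of_nonneg_left hcardU hC.le
    _ = (C * (2 ^ S.card) ^ m * D * (s : ℝ) ^ (ε / 2)) * (X : ℝ) ^ ε * (Z : ℝ) ^ (1 / (k : ℝ)) := by
        rw [hXe]; ring
    _ ≤ _ := by
        apply mul_le_mul_of_nonneg_right _ (by positivity)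
        apply mul_le_mul_of_nonneg_right _ (by positivity)
        linarith

end

end Pool.Agent.H583.AR
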