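import Pool.Agent.H583.AR.Chain

/-!
The number of the exceptional points, in terms of ratios.
-/

set_option autoImplicit false

namespace Pool.Agent.H583.AR

open Finset Pool.Agent.T2H20.ABC Pool.Agent.T2H20.AH Pool.Agent.H785R2.ABC Pool.Agent.H583.SF
  Pool.Agent.H583.WT

lemma restr_univ {n : ℕ} (t : Fin (n + 1) → ℚ) : restr univ t = t := by
  funext i
  exact restr_mem (mem_univ i)

open Classical in
/-- **the exceptional points** -/
theorem total (k : ℕ) (hk : 3 ≤ k) (n : ℕ) (F : Fin (n + 1) → Fin (n + 1) → Fin k → ℤ × ℤ)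
    (hF : ∀ i j, i ≠ j → ∀ a b, a ≠ b → det (F i j) a b ≠ 0) (S : Finset ℕ)
    (hS : ∀ p ∈ S, p.Prime)
    (hd : ∀ i j, i ≠ j → ∀ a b, a ≠ b → (det (F i j) a b).natAbs.primeFactors ⊆ S)
    (ε : ℝ) (hε : 0 < ε) : ∃ M : ℕ, ∃ C : ℝ, 1 ≤ M ∧ 0 < C ∧ ∀ X : ℕ, 1 ≤ X →
    ∀ Q : Finset (Fin (n + 1) → ℚ),
    (∀ t ∈ Q, Adm F t ∧ Rb F S t univ ≤ X ∧
      ∃ j : Fin (n + 1), j ≠ 0 ∧ ((∏ p ∈ S, p) * Rb F S t univ) ^ (2 * M) ≤ ht (ra t j 0)) →
    (Q.card : ℝ) ≤ C * (X : ℝ) ^ (1 / (k : ℝ) + ε) := by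
  obtain ⟨δ, hδ⟩ : ∃ δ : ℝ, δ = ε / (2 * (n + 1)) := ⟨_, rfl⟩
  have hn0 : (0 : ℝ) < n + 1 := by positivity
  have hδ0 : 0 < δ := by rw [hδ]; positivity
  obtain ⟨M, C, hM, hC, h⟩ := chain_count k hk n F hF S hS hd δ hδ0
  obtain ⟨C₁, hC₁, hlog⟩ := log_bound δ hδ0
  have hk0 : (0 : ℝ) < k := by
    have : 0 < k := by omega
    exact_mod_cast this
  refine ⟨M, (n + 1) * C₁ ^ (n + 1) * ((2 * C) ^ (n + 1) * (2 ^ (n + 1) : ℝ) ^ (1 / (k : ℝ))), hM,
    by positivity, ?_⟩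
  intro X hX Q hQ
  have hX1 : (1 : ℝ) ≤ X := by exact_mod_cast hX
  have hX0 : (0 : ℝ) < X := by linarith
  obtain ⟨B, hB⟩ : ∃ B : ℝ, B = (2 * C) ^ (n + 1) * (X : ℝ) ^ (ε / 2) *
    ((2 ^ (n + 1) : ℝ) ^ (1 / (k : ℝ)) * (X : ℝ) ^ (1 / (k : ℝ))) := ⟨_, rfl⟩
  have hXpow : ((X : ℝ) ^ δ) ^ (n + 1) = (X : ℝ) ^ (ε / 2) := by
    rw [← Real.rpow_natCast, ← Real.rpow_mul hX0.le, hδ]
    congr 1
    push_cast
    field_simp
  have hcov := card_le_of_cover Q ((univ : Finset (Fin (n + 1))) ×ˢ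
      (Fintype.piFinset fun _ : Fin (n + 1) => range (Nat.log 2 X + 1)))
    (fun z t => (z.1 ≠ 0 ∧ ((∏ p ∈ S, p) * Rb F S t univ) ^ (2 * M) ≤ ht (ra t z.1 0)) ∧
      ∀ m : Fin (n + 1), z.2 m = Nat.log 2 (NU F S z.1 t m)) B (by
      intro t htQ
      obtain ⟨h1, h2, j, hj, h3⟩ := hQ t htQ
      refine ⟨(j, fun m => Nat.log 2 (NU F S j t m)), ?_, ⟨hj, h3⟩, fun m => rfl⟩
      rw [mem_product, Fintype.mem_piFinset]
      refine ⟨mem_univ _, fun m => ?_⟩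
      rw [mem_range]
      apply Nat.lt_succ_of_le
      show Nat.log 2 (NU F S j t m) ≤ Nat.log 2 X
      apply Nat.log_mono_right
      refine le_trans ?_ h2
      have h4 : NU F S j t m ≤ ∏ m ∈ range (n + 1), NU F S j t m :=
        Nat.le_of_dvd (Finset.prod_pos fun m _ => nu_pos t _ _)
          (Finset.dvd_prod_of_mem (fun m => NU F S j t m) (mem_range.2 m.isLt))
      exact h4.trans (prod_NU_le F S j t)) (by
      rintro ⟨j, e⟩ hz
      simp only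
      set Q' := Q.filter fun t => (j ≠ 0 ∧ ((∏ p ∈ S, p) * Rb F S t univ) ^ (2 * M) ≤
        ht (ra t j 0)) ∧ ∀ m : Fin (n + 1), e m = Nat.log 2 (NU F S j t m) with hQ'
      rcases Q'.eq_empty_or_nonempty with h0 | ⟨t0, ht0⟩
      · rw [h0, card_empty, Nat.cast_zero, hB]
        positivity
      obtain ⟨Z, hZ⟩ : ∃ Z : ℕ → ℕ, Z = fun m => if hm : m < n + 1 then 2 ^ (e ⟨m, hm⟩ + 1) else 1 :=
        ⟨_, rfl⟩
      have hZ1 : ∀ m, 1 ≤ Z m := by
        intro m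
        rw [hZ]
        simp only
        split_ifs
        · exact Nat.one_le_two_pow
        · exact le_rfl
      have hj : j ≠ 0 := by
        rw [hQ', mem_filter] at ht0
        exact ht0.2.1.1
      have h1 := h X hX j hj Q' (by
        intro t htQ
        rw [hQ', mem_filter] at htQ
        exact ⟨(hQ t htQ.1).1, (hQ t htQ.1).2.1, htQ.2.1.2⟩) Z hZ1 (n + 1) (by
        intro t htQ m hm
        rw [hQ', mem_filter] at htQ
        rw [hZ]
        simp only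
        rw [dif_pos hm, htQ.2.2 ⟨m, hm⟩]
        exact (Nat.lt_pow_succ_log_self (by norm_num) _).le)
      have himg : Q'.image (restr (ch n j (n + 1))) = Q' := by
        rw [ch_univ]
        have : (restr (univ : Finset (Fin (n + 1)))) = id := by
          funext t
          exact restr_univ t
        rw [this, image_id]
      rw [himg] at h1
      refine h1.trans ?_
      rw [hB]
      -- the product of the bounds
      have hprodZ : ∏ m ∈ range (n + 1), Z m ≤ 2 ^ (n + 1) * X := by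
        rw [hQ', mem_filter] at ht0
        have h2 : ∀ m ∈ range (n + 1), Z m ≤ 2 * NU F S j t0 m := by
          intro m hm
          rw [mem_range] at hm
          rw [hZ]
          simp only
          rw [dif_pos hm, ht0.2.2 ⟨m, hm⟩, pow_succ, mul_comm]
          exact Nat.mul_le_mul_left _ (Nat.pow_log_le_self 2 (nu_pos t0 _ _).ne')
        calc ∏ m ∈ range (n + 1), Z m ≤ ∏ m ∈ range (n + 1), (2 * NU F S j t0 m) :=
              Finset.prod_le_prod' h2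
          _ = 2 ^ (n + 1) * ∏ m ∈ range (n + 1), NU F S j t0 m := by
              rw [Finset.prod_mul_distrib, Finset.prod_const, card_range]
          _ ≤ 2 ^ (n + 1) * X := Nat.mul_le_mul_left _
              ((prod_NU_le F S j t0).trans (hQ t0 ht0.1).2.1)
      have e1 : ∏ m ∈ range (n + 1), (2 * (C * (X : ℝ) ^ δ * (Z m : ℝ) ^ (1 / (k : ℝ)))) =
          (2 * C) ^ (n + 1) * ((X : ℝ) ^ δ) ^ (n + 1) *
            (((∏ m ∈ range (n + 1), Z m : ℕ)) : ℝ) ^ (1 / (k : ℝ)) := by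
        have : ∀ m ∈ range (n + 1), (2 * (C * (X : ℝ) ^ δ * (Z m : ℝ) ^ (1 / (k : ℝ)))) =
            (2 * C * (X : ℝ) ^ δ) * (Z m : ℝ) ^ (1 / (k : ℝ)) := fun m _ => by ring
        rw [Finset.prod_congr rfl this, Finset.prod_mul_distrib, Finset.prod_const, card_range,
          Real.finsetProd_rpow _ _ (fun m _ => Nat.cast_nonneg _), mul_pow (2 * C)]
        push_cast
        rfl
      rw [e1, hXpow]
      apply mul_le_mul_of_nonneg_left _ (by positivity)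
      rw [← Real.mul_rpow (by positivity) hX0.le]
      apply Real.rpow_le_rpow (Nat.cast_nonneg _) _ (by positivity)
      exact_mod_cast hprodZ)
  rw [card_product, Fintype.card_piFinset, Finset.prod_const, card_univ, Fintype.card_fin,
    card_range] at hcov
  have hl : ((Nat.log 2 X + 1 : ℕ) : ℝ) ≤ C₁ * (X : ℝ) ^ δ := by
    refine le_trans ?_ (hlog X hX)
    push_cast
    linarith
  have hl2 : (((n + 1) * (Nat.log 2 X + 1) ^ (n + 1) : ℕ) : ℝ) ≤
      (n + 1) * (C₁ ^ (n + 1) * (X : ℝ) ^ (ε / 2)) := by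
    have h5 : ((Nat.log 2 X + 1 : ℕ) : ℝ) ^ (n + 1) ≤ (C₁ * (X : ℝ) ^ δ) ^ (n + 1) :=
      pow_le_pow_left₀ (Nat.cast_nonneg _) hl _
    rw [mul_pow, hXpow] at h5
    push_cast at h5 ⊢
    exact mul_le_mul_of_nonneg_left h5 (by positivity)
  have hB0 : 0 ≤ B := by rw [hB]; positivity
  calc (Q.card : ℝ) ≤ (((n + 1) * (Nat.log 2 X + 1) ^ (n + 1) : ℕ) : ℝ) * B := hcov
    _ ≤ ((n + 1) * (C₁ ^ (n + 1) * (X : ℝ) ^ (ε / 2))) * B := mul_le_mul_of_nonneg_right hl2 hB0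
    _ = (n + 1) * C₁ ^ (n + 1) * ((2 * C) ^ (n + 1) * (2 ^ (n + 1) : ℝ) ^ (1 / (k : ℝ))) *
        ((X : ℝ) ^ (ε / 2) * (X : ℝ) ^ (ε / 2) * (X : ℝ) ^ (1 / (k : ℝ))) := by rw [hB]; ring
    _ = _ := by
        rw [← Real.rpow_add hX0, ← Real.rpow_add hX0]
        congr 2
        ring

end Pool.Agent.H583.AR
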